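import Pool.Agent.H637_NO.Fin
import Pool.Agent.H637_NO.HCg
import Pool.Agent.H637_NO.C4

/-!
# New orbits of thin transitive relations under proper forcing

Assume boldface `Π^1_{n+1}`-determinacy. Then there is a countable transitive model `V` of ZFC and
of boldface `Π^1_{n+1}`-determinacy with a proper `Σ^1_2` forcing `P` and a thin, provably
`Δ^1_{n+3}` equivalence relation such that `P` adds a new orbit to it.

The model is an extension by fast sequences of the collapse `U` of a countable elementary submodel
of the least level of `L(ℝ)` that is a model of ZF; the extension adds no reals, and in it all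
reals are elements of countable transitive models of ZF. The forcing `P` adds a real that is in no
transitive model of ZF whose height is an ordinal of `V`.
-/

set_option autoImplicit false

namespace Pool.Agent.Results.MP_b3d6af_lc.ProperNewOrbits

open Pool.Agent.W868 Pool.Agent.W868.GM Pool.Agent.H637_NO

/-- Main theorem. -/
theorem result (n : ℕ) (h : PiDet Set.univ (n + 1)) :
    ∃ V : Set ZFSet.{0}, V.Countable ∧ IsZFC V ∧ PiDet (Reals V) (n + 1) ∧
      ∃ P Le : ZFSet.{0}, IsForcing V P Le ∧ Sig12 V P Le ∧ Proper V P Le ∧
        ∃ φ φ' : Fm 2 0, ProvDelta (n + 3) φ φ' ∧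
          (∀ 𝔐 : Str, Nonempty 𝔐.R →
            Equivalence fun x y : 𝔐.R => Holds 𝔐 φ ![x, y] fun i => i.elim0) ∧
          Thin (Reals V) (Rel (Reals V) φ) ∧ NewOrbit V P Le φ := by
  have hPC := pC hCg hC2
  have hWD := wD hCg hC2 hPC
  have hC1 := c1 hCg hC2 rW hWD hPC
  have hCP := cP hC2 hPC
  exact final hCg (c4 hCg hC2 rW hWD hPC hC1 hCP) n h

end Pool.Agent.Results.MP_b3d6af_lc.ProperNewOrbits
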